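import Pool.Agent.L7h73.SGP.R2

set_option autoImplicit false
set_option linter.unusedSectionVars false

/-!
# Project SGP (helper48), part ID
-/

namespace Pool.Agent.L7h73.SGP

open Pool.Agent.L7h48.SG Pool.Agent.L7h48.SGP
open Pool.Agent.L7h15.SG (em pid mem_pid em_int em_mem em_surj norm_int_le integral_iota
  integral_map exists_pow_principal norm_p_lt)
open Pool.Agent.Y715.Gi (QB KK GK)
open NumberField
open scoped nonZeroDivisors

/-- `3` splits in `ℚ(√-D)` if `D ≡ 2` modulo `3` (helper48) -/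
lemma exists_root {D : ℕ} (hD : D % 3 = 2) : ∃ t : ℚ_[3], t ^ 2 = -(D : ℚ_[3]) := by
  have h := hensels_lemma (p := 3) (F := (Polynomial.X ^ 2 + Polynomial.C ((D : ℕ) : ℤ_[3]) : Polynomial ℤ_[3]))
    (a := 1) (by
      have h1 : Polynomial.aeval (1 : ℤ_[3]) (Polynomial.X ^ 2 + Polynomial.C ((D : ℕ) : ℤ_[3]) :
          Polynomial ℤ_[3]) = ((1 + D : ℕ) : ℤ_[3]) := by
        simp
      have h2 : Polynomial.aeval (1 : ℤ_[3]) (Polynomial.derivative
          (Polynomial.X ^ 2 + Polynomial.C ((D : ℕ) : ℤ_[3]) : Polynomial ℤ_[3])) = ((2 : ℕ) : ℤ_[3]) := by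
        simp
        norm_num
      have e2 : ‖((2 : ℕ) : ℤ_[3])‖ = 1 := by
        rw [PadicInt.norm_natCast_eq_one_iff]
        decide
      have e1 : ‖((1 + D : ℕ) : ℤ_[3])‖ < 1 := by
        have h3 : ((1 + D : ℕ) : ℤ_[3]) = (((1 + D : ℕ) : ℤ) : ℤ_[3]) := by push_cast; rfl
        rw [h3, PadicInt.norm_int_lt_one_iff_dvd]
        omega
      rw [h1, h2, e2]
      linarith)
  obtain ⟨z, hz, _⟩ := h
  refine ⟨(z : ℚ_[3]), ?_⟩
  have h3 : z ^ 2 + (D : ℤ_[3]) = 0 := by simpa using hz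
  have h4 : z ^ 2 = -(D : ℤ_[3]) := by linear_combination h3
  exact_mod_cast congrArg (fun y : ℤ_[3] => (y : ℚ_[3])) h4

section id

variable {s : QB} {D : ℕ} (hs : s ^ 2 = -(D : QB)) (hsf : Squarefree D) (hD : D % 12 = 11)

include hs hD in
lemma loc_all (ι₀ : QB →ₐ[ℚ] PadicAlgCl 3) {z : QB} (hz : z ∈ KK s) :
    ∃ t : ℚ_[3], algebraMap ℚ_[3] (PadicAlgCl 3) t = ι₀ z := by
  obtain ⟨r, hr⟩ := exists_root (D := D) (by omega)
  have h1 : (ι₀ s) ^ 2 = (algebraMap ℚ_[3] (PadicAlgCl 3) r) ^ 2 := by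
    rw [← map_pow, hs, ← map_pow, hr, map_neg, map_neg, map_natCast, map_natCast]
  obtain ⟨t, ht⟩ : ∃ t : ℚ_[3], algebraMap ℚ_[3] (PadicAlgCl 3) t = ι₀ s := by
    rcases sq_eq_sq_iff_eq_or_eq_neg.1 h1 with h2 | h2
    · exact ⟨r, h2.symm⟩
    · exact ⟨-r, by rw [h2, map_neg]⟩
  obtain ⟨u, v, rfl⟩ := Pool.Agent.Z384.KK_ex hs hz
  refine ⟨(u : ℚ_[3]) + v * t, ?_⟩
  rw [map_add, map_mul, ht, map_add, map_mul, map_ratCast, map_ratCast, map_ratCast, map_ratCast]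

lemma prime_eq {R : Type} [CommRing R] [IsDedekindDomain R] {P Q : Ideal R} (hP : Prime P)
    (hQ : Prime Q) (h : P ∣ Q) : P = Q :=
  associated_iff_eq.1 ((hP.dvd_prime_iff_associated hQ).1 h)

/-- an ideal whose orders are divisible by three outside `P₁` -/
lemma cube_part {P₁ : Ideal (𝓞 (KK s))} (hP₁ : Prime P₁) :
    ∀ (N : ℕ) (A : Ideal (𝓞 (KK s))), Ideal.absNorm A = N → A ≠ ⊥ →
      (∀ P : Ideal (𝓞 (KK s)), Prime P → P ≠ P₁ → ∀ n J, A = P ^ n * J → ¬ P ∣ J → 3 ∣ n) →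
      ∃ (I : Ideal (𝓞 (KK s))) (k : ℕ), A = I ^ 3 * P₁ ^ k := by
  intro N
  induction N using Nat.strong_induction_on with
  | _ N ih =>
    intro A hN hA hyp
    by_cases hu : IsUnit A
    · refine ⟨1, 0, ?_⟩
      rw [one_pow, pow_zero, mul_one, Ideal.one_eq_top]
      exact Ideal.isUnit_iff.1 hu
    · obtain ⟨P, hPi, hPA⟩ := WfDvdMonoid.exists_irreducible_factor hu hA
      have hP := hPi.prime
      obtain ⟨n, J, h1, h2⟩ := exists_ord hP hA
      have hn : n ≠ 0 := by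
        rintro rfl
        rw [pow_zero, one_mul] at h1
        exact h2 (h1 ▸ hPA)
      have hJ : J ≠ ⊥ := by
        rintro rfl
        rw [Ideal.mul_bot] at h1
        exact hA h1
      have hPn := absNorm_gt (s := s) hP.ne_zero (fun h => hP.not_isUnit (by
        rw [h, ← Ideal.one_eq_top]
        exact isUnit_one))
      have hJ1 : Ideal.absNorm J < N := by
        have h3 : 1 ≤ Ideal.absNorm J := by
          rw [Nat.one_le_iff_ne_zero, Ne, Ideal.absNorm_eq_zero_iff]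
          exact hJ
        have h4 : 2 ≤ Ideal.absNorm P ^ n := hPn.trans (Nat.le_self_pow hn _)
        rw [← hN, h1, map_mul, map_pow]
        nlinarith
      obtain ⟨I, k, hI⟩ := ih _ hJ1 J rfl hJ (by
        intro P' hP' hne n' J' h3 h4
        by_cases hPP : P' = P
        · have : n' = 0 := by
            by_contra h0
            apply h2
            rw [h3, hPP]
            exact (dvd_pow_self _ h0).mul_right _
          rw [this]
          exact dvd_zero 3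
        · refine hyp P' hP' hne n' (P ^ n * J') ?_ ?_
          · rw [h1, h3]
            ring
          · intro h5
            rcases hP'.dvd_or_dvd h5 with h6 | h6
            · exact hPP (prime_eq hP' hP (hP'.dvd_of_dvd_pow h6))
            · exact h4 h6)
      by_cases hPP : P = P₁
      · refine ⟨I, k + n, ?_⟩
        rw [h1, hI, hPP, pow_add]
        ring
      · obtain ⟨m, rfl⟩ := hyp P hP hPP n J h1 h2
        refine ⟨P ^ m * I, k, ?_⟩
        rw [h1, hI, mul_pow, ← pow_mul, mul_comm m 3]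
        ring

/-- the norm of a natural number at a place -/
lemma norm_nat_pow {q : ℕ} [hq : Fact q.Prime] (ι : QB →ₐ[ℚ] PadicAlgCl q) {m : ℕ} (hm : m ≠ 0) :
    ∃ k : ℤ, ‖ι (m : QB)‖ = (q : ℝ) ^ k := by
  have h1 : ‖((m : ℚ_[q]) : PadicAlgCl q)‖ = ‖(m : ℚ_[q])‖ := PadicAlgCl.norm_extends q _
  have h2 : ((m : ℚ_[q]) : PadicAlgCl q) = (m : PadicAlgCl q) :=
    map_natCast (algebraMap ℚ_[q] (PadicAlgCl q)) _
  rw [h2] at h1
  rw [map_natCast, h1]
  exact ⟨_, Padic.norm_eq_zpow_neg_valuation (by exact_mod_cast hm)⟩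

include hs hD in
/-- the orders of an element whose cube roots are unramified outside three -/
lemma three_dvd {ι₀ ι₁ : QB →ₐ[ℚ] PadicAlgCl 3} (hsf : Squarefree D) (hι : ι₁ s = -ι₀ s)
    {z : 𝓞 (KK s)}
    (h1 : ∀ x : QB, x ^ 3 = em s z → RR x)
    (h2 : ∃ t : ℚ_[3], algebraMap ℚ_[3] (PadicAlgCl 3) t ^ 3 = ι₀ (em s z))
    (P : Ideal (𝓞 (KK s))) (hP : Prime P) (hne : P ≠ pid s ι₁) (n : ℕ) (J : Ideal (𝓞 (KK s)))
    (hA : Ideal.span {z} = P ^ n * J) (hJ : ¬ P ∣ J) : 3 ∣ n := by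
  by_cases hP0 : P = pid s ι₀
  · subst hP0
    have h3 := norm3 hs hD hι z n J hA hJ
    obtain ⟨t, ht⟩ := h2
    have h4 : ‖t‖ ^ 3 = (1 / 3 : ℝ) ^ n := by
      rw [← h3, ← ht, norm_pow]
      congr 1
      exact (PadicAlgCl.norm_extends 3 t).symm
    have ht0 : t ≠ 0 := by
      rintro rfl
      rw [norm_zero, zero_pow (by norm_num)] at h4
      have : (0 : ℝ) < (1 / 3) ^ n := by positivity
      linarith
    rw [Padic.norm_eq_zpow_neg_valuation ht0, ← zpow_natCast, ← zpow_mul, one_div, inv_pow,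
      ← zpow_natCast, ← zpow_neg] at h4
    have h5 := (zpow_right_injective₀ (a := (3 : ℝ)) (by norm_num) (by norm_num)) (by
      push_cast at h4
      exact h4)
    omega
  · obtain ⟨q, hq, ι, rfl⟩ := exists_place hs hsf hD P (Ideal.isPrime_of_prime hP) hP.ne_zero
    have hqp := hq.out
    have hq1 : (1 : ℝ) < q := by exact_mod_cast hqp.one_lt
    have hq3 : q ≠ 3 := by
      rintro rfl
      have h3 : pid s ι ∣ pid s ι₀ * pid s ι₁ := by
        rw [← (three_eq hs hD hι).1, Ideal.dvd_span_singleton]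
        exact q_mem ι
      rcases hP.dvd_or_dvd h3 with h4 | h4
      · exact hP0 (prime_eq hP (pid_Prime ι₀) h4)
      · exact hne (prime_eq hP (pid_Prime ι₁) h4)
    obtain ⟨e, J', e1, e2⟩ := exists_ord hP (A := Ideal.span {((q : ℕ) : 𝓞 (KK s))}) (by
      rw [Ne, Ideal.span_singleton_eq_bot]
      exact Nat.cast_ne_zero.2 hqp.ne_zero)
    have h3 := kl ι z n e J J' hA hJ e1 e2
    obtain ⟨x, hx⟩ := IsAlgClosed.exists_pow_nat_eq (em s z) (n := 3) (by norm_num)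
    obtain ⟨m, hm⟩ := h1 x hx q ι hq3
    have h4 : ‖ι (em s z)‖ ^ 2 = (q : ℝ) ^ (3 * m) := by
      rw [← hx, map_pow, norm_pow, ← pow_mul, mul_comm 3 2, pow_mul, hm, ← zpow_natCast,
        ← zpow_mul, mul_comm]
      norm_num
    have h5 : ((q : ℝ) ^ (3 * m)) ^ e = (((q : ℝ)⁻¹) ^ n) ^ 2 := by
      rw [← h4, ← h3]
      ring
    rw [← zpow_natCast, ← zpow_mul, inv_pow, inv_pow, ← zpow_natCast, ← zpow_natCast, ← zpow_mul,
      ← zpow_neg] at h5
    have h6 := (zpow_right_injective₀ (a := (q : ℝ)) (by linarith) (by linarith [hq1])) h5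
    have h7 : (3 : ℤ) ∣ 2 * n := ⟨-(m * e), by push_cast at h6; linarith⟩
    omega

include hs hD in
/-- the cubic ideal -/
lemma step_d {ι₀ ι₁ : QB →ₐ[ℚ] PadicAlgCl 3} (hsf : Squarefree D) (hι : ι₁ s = -ι₀ s)
    {z : 𝓞 (KK s)} (hz : z ≠ 0)
    (h1 : ∀ x : QB, x ^ 3 = em s z → RR x)
    (h2 : ∃ t : ℚ_[3], algebraMap ℚ_[3] (PadicAlgCl 3) t ^ 3 = ι₀ (em s z))
    (h3 : ¬ ∃ y ∈ KK s, y ^ 3 = em s z) :
    ∃ (z' : 𝓞 (KK s)) (I : Ideal (𝓞 (KK s))) (j : ℕ), z' ≠ 0 ∧ I ≠ ⊥ ∧ j ≤ 1 ∧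
      Ideal.span {z'} = I ^ 3 * pid s ι₁ ^ j ∧
      (∃ t : ℚ_[3], algebraMap ℚ_[3] (PadicAlgCl 3) t ^ 3 = ι₀ (em s z')) ∧
      ¬ ∃ y ∈ KK s, y ^ 3 = em s z' := by
  have hz0 : Ideal.span {z} ≠ ⊥ := by
    rw [Ne, Ideal.span_singleton_eq_bot]
    exact hz
  have hP1 := pid_Prime (s := s) ι₁
  obtain ⟨I, k, hI⟩ := cube_part hP1 _ (Ideal.span {z}) rfl hz0 fun P hP hne n J hA hJ =>
    three_dvd hs hD hsf hι h1 h2 P hP hne n J hA hJ
  have hI0 : I ≠ ⊥ := by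
    rintro rfl
    rw [← Ideal.zero_eq_bot, zero_pow (by norm_num), zero_mul] at hI
    exact hz0 hI
  obtain ⟨k', r, hr, rfl⟩ : ∃ k' r, r < 3 ∧ k = 3 * k' + r := ⟨k / 3, k % 3, by omega, by omega⟩
  have e1 : Ideal.span {z} = (I * pid s ι₁ ^ k') ^ 3 * pid s ι₁ ^ r := by
    rw [hI, pow_add, mul_pow, ← pow_mul, mul_comm k' 3]
    ring
  have hI' : I * pid s ι₁ ^ k' ≠ ⊥ := mul_ne_zero hI0 (pow_ne_zero _ hP1.ne_zero)
  by_cases hr2 : r ≤ 1
  · exact ⟨z, _, r, hz, hI', hr2, e1, h2, h3⟩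
  · obtain rfl : r = 2 := by omega
    have hz' : em s z ≠ 0 := by
      intro h
      exact hz (em_inj (by rw [h, map_zero]))
    refine ⟨z ^ 2, (I * pid s ι₁ ^ k') ^ 2 * pid s ι₁, 1, pow_ne_zero 2 hz, ?_, le_rfl, ?_, ?_, ?_⟩
    · exact mul_ne_zero (pow_ne_zero 2 hI') hP1.ne_zero
    · rw [← Ideal.span_singleton_pow, e1]
      ring
    · obtain ⟨t, ht⟩ := h2
      refine ⟨t ^ 2, ?_⟩
      rw [map_pow (em s), map_pow ι₀, ← ht, map_pow]
      ring
    · rintro ⟨y, hy, hy3⟩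
      rw [map_pow] at hy3
      have hy0 : y ≠ 0 := by
        rintro rfl
        rw [zero_pow (by norm_num)] at hy3
        exact pow_ne_zero 2 hz' hy3.symm
      refine h3 ⟨em s z / y, div_mem (em_mem z) hy, ?_⟩
      rw [div_pow, hy3]
      field_simp

end id

theorem s_ID (hMK : S_MK) : S_ID := by
  classical
  intro D hsf hD s hs ι₀ ι₁ hι hG
  unfold Good at hG
  push Not at hG
  obtain ⟨a, haK, ha0, ha1, ha2, ha3⟩ := hG
  -- an integral multiple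
  obtain ⟨u, v, huv⟩ := Pool.Agent.Z384.KK_ex hs haK
  set m : ℕ := u.den * v.den with hm
  have hm0 : m ≠ 0 := mul_ne_zero u.den_ne_zero v.den_ne_zero
  have hmQ : (m : QB) ≠ 0 := by exact_mod_cast hm0
  obtain ⟨b1, hb1⟩ := form' hs hD (2 * (u.num * v.den)) (2 * (v.num * u.den))
    ⟨u.num * v.den - v.num * u.den, by ring⟩
  have hb1' : em s b1 = m * a := by
    have hu : (u : QB) * u.den = u.num := by
      have := Rat.mul_den_eq_num u
      exact_mod_cast congrArg (fun x : ℚ => (x : QB)) this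
    have hv : (v : QB) * v.den = v.num := by
      have := Rat.mul_den_eq_num v
      exact_mod_cast congrArg (fun x : ℚ => (x : QB)) this
    rw [hb1, huv, hm]
    push_cast
    rw [← hu, ← hv]
    ring
  set z : 𝓞 (KK s) := (m : 𝓞 (KK s)) ^ 2 * b1 with hz
  have hez : em s z = (m : QB) ^ 3 * a := by
    rw [hz, map_mul, map_pow, map_natCast, hb1']
    ring
  have hz0 : z ≠ 0 := by
    intro h
    rw [h, map_zero] at hez
    exact mul_ne_zero (pow_ne_zero 3 hmQ) ha0 hez.symm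
  have hz1 : ∀ x : QB, x ^ 3 = em s z → RR x := by
    intro x hx
    have h1 : (x / m) ^ 3 = a := by
      rw [div_pow, hx, hez]
      field_simp
    have h2 := ha1 _ h1
    intro q hq ι hq3
    obtain ⟨k, hk⟩ := h2 q ι hq3
    obtain ⟨l, hl⟩ := norm_nat_pow ι hm0
    have hq0 : (q : ℝ) ≠ 0 := by exact_mod_cast hq.out.ne_zero
    refine ⟨k + (l + l), ?_⟩
    have e : x = x / m * m := by field_simp
    rw [e, map_mul, norm_mul, mul_pow, hk, hl, pow_two, ← zpow_add₀ hq0, ← zpow_add₀ hq0]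
  have hz2 : ∃ t : ℚ_[3], algebraMap ℚ_[3] (PadicAlgCl 3) t ^ 3 = ι₀ (em s z) := by
    obtain ⟨t, ht⟩ := ha2
    refine ⟨m * t, ?_⟩
    rw [hez, map_mul ι₀, map_pow ι₀, map_natCast ι₀, map_mul, map_natCast, ← ht]
    ring
  have hz3 : ¬ ∃ y ∈ KK s, y ^ 3 = em s z := by
    rintro ⟨y, hy, hy3⟩
    refine ha3 (y / m) (div_mem hy (natCast_mem _ m)) ?_
    rw [div_pow, hy3, hez]
    field_simp
  obtain ⟨w, I₀, j, hw0, hI₀, hj, hw, hw2, hw3⟩ := step_d hs hD hsf hι hz0 hz1 hz2 hz3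
  -- the ideal of minimal norm in the class
  have hI₀' : I₀ ∈ (Ideal (𝓞 (KK s)))⁰ := mem_nonZeroDivisors_of_ne_zero hI₀
  obtain ⟨I', hI'1, hI'2⟩ := hMK D hsf (by omega) s hs (ClassGroup.mk0 ⟨I₀, hI₀'⟩)
  have hex : ∃ n : ℕ, ∃ I : (Ideal (𝓞 (KK s)))⁰, ClassGroup.mk0 I = ClassGroup.mk0 ⟨I₀, hI₀'⟩ ∧
      Ideal.absNorm (I : Ideal (𝓞 (KK s))) = n := ⟨_, I', hI'1, rfl⟩
  obtain ⟨I, hI1, hI2⟩ := Nat.find_spec hex
  have hmin : ∀ I'' : (Ideal (𝓞 (KK s)))⁰, ClassGroup.mk0 I'' = ClassGroup.mk0 ⟨I₀, hI₀'⟩ →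
      Ideal.absNorm (I : Ideal (𝓞 (KK s))) ≤ Ideal.absNorm (I'' : Ideal (𝓞 (KK s))) := by
    intro I'' h
    rw [hI2]
    exact Nat.find_min' hex ⟨I'', h, rfl⟩
  have hIne : (I : Ideal (𝓞 (KK s))) ≠ ⊥ := nonZeroDivisors.coe_ne_zero I
  obtain ⟨x, y, hx0, hy0, hxy⟩ := ClassGroup.mk0_eq_mk0_iff.1 hI1.symm
  have hxy' : Ideal.span {x} * I₀ = Ideal.span {y} * (I : Ideal (𝓞 (KK s))) := hxy
  have e1 : Ideal.span {x ^ 3 * w} = Ideal.span {y ^ 3} *
      ((I : Ideal (𝓞 (KK s))) ^ 3 * pid s ι₁ ^ j) := by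
    rw [← Ideal.span_singleton_mul_span_singleton, ← Ideal.span_singleton_pow,
      ← Ideal.span_singleton_pow, hw, ← mul_assoc, ← mul_pow, hxy', mul_pow, mul_assoc]
  have e2 : x ^ 3 * w ∈ Ideal.span {y ^ 3} := by
    have h5 : x ^ 3 * w ∈ Ideal.span {x ^ 3 * w} := Ideal.mem_span_singleton_self _
    rw [e1] at h5
    have h6 : Ideal.span {y ^ 3} * ((I : Ideal (𝓞 (KK s))) ^ 3 * pid s ι₁ ^ j) ≤
        Ideal.span {y ^ 3} := Ideal.mul_le_left
    exact h6 h5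
  obtain ⟨b, hb⟩ := Ideal.mem_span_singleton.1 e2
  have hy3 : Ideal.span {y ^ 3} ≠ 0 := by
    rw [Ne, Ideal.zero_eq_bot, Ideal.span_singleton_eq_bot]
    exact pow_ne_zero 3 hy0
  have e3 : Ideal.span {b} = (I : Ideal (𝓞 (KK s))) ^ 3 * pid s ι₁ ^ j := by
    apply mul_left_cancel₀ hy3
    rw [← e1, hb, Ideal.span_singleton_mul_span_singleton]
  have hex0 : em s x ≠ 0 := fun h => hx0 (em_inj (by rw [h, map_zero]))
  have hey0 : em s y ≠ 0 := fun h => hy0 (em_inj (by rw [h, map_zero]))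
  have hemb : em s x ^ 3 * em s w = em s y ^ 3 * em s b := by
    rw [← map_pow, ← map_mul, hb, map_mul, map_pow]
  refine ⟨I, b, j, ⟨hj, hIne, ?_, e3, ?_, ?_, ?_⟩, ?_⟩
  · rintro rfl
    rw [mul_zero] at hb
    exact mul_ne_zero (pow_ne_zero 3 hx0) hw0 hb
  · rintro q hq ⟨I'', hI''⟩
    have hI''0 : I'' ≠ ⊥ := by
      rintro rfl
      rw [Ideal.mul_bot] at hI''
      exact hIne hI''
    have h1 : ClassGroup.mk0 (⟨I'', mem_nonZeroDivisors_of_ne_zero hI''0⟩ :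
        (Ideal (𝓞 (KK s)))⁰) = ClassGroup.mk0 I := by
      rw [ClassGroup.mk0_eq_mk0_iff]
      refine ⟨(q : 𝓞 (KK s)), 1, Nat.cast_ne_zero.2 hq.ne_zero, one_ne_zero, ?_⟩
      rw [Ideal.span_singleton_one, Ideal.top_mul]
      exact hI''.symm
    have h2 := hmin _ (h1.trans hI1)
    have h3 : Ideal.absNorm (I : Ideal (𝓞 (KK s))) = q ^ 2 * Ideal.absNorm I'' := by
      rw [hI'', map_mul, absNorm_nat hs hD]
    have h4 : Ideal.absNorm (I : Ideal (𝓞 (KK s))) ≤ Ideal.absNorm I'' := h2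
    have h5 : 0 < Ideal.absNorm I'' := by
      rw [Nat.pos_iff_ne_zero, Ne, Ideal.absNorm_eq_zero_iff]
      exact hI''0
    have h6 := hq.two_le
    have h7 : 4 * Ideal.absNorm I'' ≤ q ^ 2 * Ideal.absNorm I'' :=
      Nat.mul_le_mul_right _ (by nlinarith)
    linarith
  · obtain ⟨t, ht⟩ := hw2
    obtain ⟨X, hX⟩ := loc_all hs hD ι₀ (em_mem (s := s) x)
    obtain ⟨Y, hY⟩ := loc_all hs hD ι₀ (em_mem (s := s) y)
    have hY0 : ι₀ (em s y) ≠ 0 := (map_ne_zero ι₀).2 hey0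
    refine ⟨X * t / Y, ?_⟩
    have h1 := congrArg ι₀ hemb
    rw [map_mul, map_mul, map_pow, map_pow] at h1
    rw [map_div₀, map_mul, hX, hY, div_pow, mul_pow, ht, h1]
    field_simp
  · rintro ⟨y₀, hy₀, hy₀3⟩
    refine hw3 ⟨em s y * y₀ / em s x, div_mem (mul_mem (em_mem y) hy₀) (em_mem x), ?_⟩
    rw [div_pow, mul_pow, hy₀3, ← hemb]
    field_simp
  · have h1 : (Ideal.absNorm (I : Ideal (𝓞 (KK s))) : ℝ) ≤
        Ideal.absNorm (I' : Ideal (𝓞 (KK s))) := by exact_mod_cast hmin I' hI'1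
    exact h1.trans hI'2

end Pool.Agent.L7h73.SGP
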