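import Pool.Agent.L7h73.SGP.R2

set_option autoImplicit false
set_option linter.unusedSectionVars false

/-!
# Project SGP (helper48), part R0
-/

namespace Pool.Agent.L7h73.SGP

open Pool.Agent.L7h48.SG Pool.Agent.L7h48.SGP
open Pool.Agent.L7h15.SG (em pid mem_pid em_int em_mem em_surj norm_int_le integral_iota
  integral_map exists_pow_principal norm_p_lt)
open Pool.Agent.Y715.Gi (QB KK GK)
open NumberField

lemma sq_cube {k m : ℕ} (h : k ^ 2 = m ^ 3) : ∃ n : ℕ, k = n ^ 3 := by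
  rcases Nat.eq_zero_or_pos m with h0 | h0
  · refine ⟨0, ?_⟩
    rw [h0] at h
    have : k = 0 := by
      rw [zero_pow (by norm_num)] at h
      exact pow_eq_zero_iff (two_ne_zero) |>.1 h
    rw [this]
    norm_num
  · have h1 : m ^ 2 ∣ k ^ 2 := ⟨m, by rw [h]; ring⟩
    rw [Nat.pow_dvd_pow_iff two_ne_zero] at h1
    obtain ⟨n, rfl⟩ := h1
    refine ⟨n, ?_⟩
    have h2 : m ^ 2 * n ^ 2 = m ^ 2 * m := by
      rw [← mul_pow, h]
      ring
    have h3 : n ^ 2 = m := Nat.eq_of_mul_eq_mul_left (by positivity) h2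
    rw [← h3]
    ring

theorem s_R0 : S_R0 := by
  intro D hsf hD s hs ι₀ ι₁ hι I b j h
  have hι' : ι₀ s = -ι₁ s := by rw [hι, neg_neg]
  obtain ⟨x, y, h1, h2, -⟩ := form hs hsf hD b
  have h3 := absNorm_em hs hD b x y h1
  have h4 : Ideal.absNorm (Ideal.span {b}) = Ideal.absNorm I ^ 3 * 3 ^ j := by
    rw [h.span, map_mul, map_pow, map_pow, (three_eq hs hD hι).2.2]
  have h5 : x ^ 2 + D * y ^ 2 = 4 * (3 ^ j * (Ideal.absNorm I : ℤ) ^ 3) := by
    rw [← h3, h4]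
    push_cast
    ring
  refine ⟨x, y, h1, h2, ?_, h5⟩
  rintro rfl
  obtain ⟨k, rfl⟩ : (2 : ℤ) ∣ x := by simpa using h2
  have h6 : em s b = (k : QB) := by
    rw [h1]
    push_cast
    ring
  have h7 : k ^ 2 = 3 ^ j * (Ideal.absNorm I : ℤ) ^ 3 := by linarith
  -- `j = 0`
  have hP0 := pid_Prime (s := s) ι₀
  have hP1 := pid_Prime (s := s) ι₁
  obtain ⟨a, J, e1, e2⟩ := exists_ord hP0 h.I0
  obtain ⟨a', J', e1', e2'⟩ := exists_ord hP1 h.I0
  have n0 : ‖ι₀ (em s b)‖ = (1 / 3 : ℝ) ^ (3 * a) := by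
    refine norm3 hs hD hι b (3 * a) (J ^ 3 * pid s ι₁ ^ j) ?_ ?_
    · rw [h.span, e1, mul_pow, ← pow_mul, mul_comm a 3, mul_assoc]
    · intro hd
      rcases hP0.dvd_or_dvd hd with hd | hd
      · exact e2 (hP0.dvd_of_dvd_pow hd)
      · exact not_dvd hs hD hι (hP0.dvd_of_dvd_pow hd)
  have n1 : ‖ι₁ (em s b)‖ = (1 / 3 : ℝ) ^ (3 * a' + j) := by
    refine norm3 hs hD hι' b (3 * a' + j) (J' ^ 3) ?_ ?_
    · rw [h.span, e1', mul_pow, ← pow_mul, mul_comm a' 3, pow_add]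
      ring
    · intro hd
      exact e2' (hP1.dvd_of_dvd_pow hd)
  have n2 : ‖ι₀ (em s b)‖ = ‖ι₁ (em s b)‖ := by
    rw [h6, map_intCast, map_intCast]
  rw [n0, n1] at n2
  have n3 : 3 * a = 3 * a' + j := by
    by_contra hne
    rcases lt_or_gt_of_ne hne with h8 | h8
    · exact absurd n2 (ne_of_gt (pow_lt_pow_right_of_lt_one₀ (by norm_num) (by norm_num) h8))
    · exact absurd n2 (ne_of_lt (pow_lt_pow_right_of_lt_one₀ (by norm_num) (by norm_num) h8))
  have j0 : j = 0 := by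
    have := h.j1
    omega
  rw [j0, pow_zero, one_mul] at h7
  have h8 : k.natAbs ^ 2 = Ideal.absNorm I ^ 3 := by
    have h9 : ((k.natAbs ^ 2 : ℕ) : ℤ) = ((Ideal.absNorm I ^ 3 : ℕ) : ℤ) := by
      push_cast
      rw [sq_abs]
      exact h7
    exact_mod_cast h9
  obtain ⟨n, hn⟩ := sq_cube h8
  apply h.not_cube
  rcases Int.natAbs_eq k with h9 | h9
  · refine ⟨(n : QB), natCast_mem _ n, ?_⟩
    rw [h6, h9, hn]
    push_cast
    rfl
  · refine ⟨-(n : QB), neg_mem (natCast_mem _ n), ?_⟩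
    rw [h6, h9, hn]
    push_cast
    ring

end Pool.Agent.L7h73.SGP
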