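import Pool.Agent.L7h73.SGP.Prm

set_option autoImplicit false
set_option linter.unusedSectionVars false

/-!
# Project SGP (helper48), part R2
-/

namespace Pool.Agent.L7h73.SGP

open Pool.Agent.L7h48.SG Pool.Agent.L7h48.SGP
open Pool.Agent.L7h15.SG (em pid mem_pid em_int em_mem em_surj norm_int_le integral_iota
  integral_map exists_pow_principal norm_p_lt)
open Pool.Agent.Y715.Gi (QB KK GK)
open NumberField

section ord

variable {s : QB} {D : ℕ} (hs : s ^ 2 = -(D : QB)) (hsf : Squarefree D) (hD : D % 12 = 11)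
  {ι₀ ι₁ : QB →ₐ[ℚ] PadicAlgCl 3} (hι : ι₁ s = -ι₀ s)

include hs hD hι in
/-- the norm at a place above three -/
theorem norm3 (z : 𝓞 (KK s)) (n : ℕ) (J : Ideal (𝓞 (KK s)))
    (h1 : Ideal.span {z} = pid s ι₀ ^ n * J) (h2 : ¬ pid s ι₀ ∣ J) :
    ‖ι₀ (em s z)‖ = (1 / 3 : ℝ) ^ n := by
  have h3 := (three_eq hs hD hι).1
  have h4 := kl ι₀ z n 1 J (pid s ι₁) h1 h2 (by rw [h3, pow_one]) (not_dvd hs hD hι)
  rw [pow_one] at h4
  rw [h4]
  norm_num

lemma exists_ord {R : Type} [CommRing R] [IsDedekindDomain R] {P A : Ideal R} (hP : Prime P)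
    (hA : A ≠ ⊥) : ∃ (n : ℕ) (J : Ideal R), A = P ^ n * J ∧ ¬ P ∣ J := by
  obtain ⟨n, J, h1, h2⟩ := WfDvdMonoid.max_power_factor (a₀ := A) (x := P) hA hP.irreducible
  exact ⟨n, J, h2, h1⟩

include hs hD hι in
theorem dvd_of_norm {z : 𝓞 (KK s)} (hz : z ≠ 0) {k : ℕ} (h : ‖ι₀ (em s z)‖ ≤ (1 / 3 : ℝ) ^ k) :
    pid s ι₀ ^ k ∣ Ideal.span {z} := by
  obtain ⟨n, J, h1, h2⟩ := exists_ord (pid_Prime (s := s) ι₀) (A := Ideal.span {z}) (by
    rw [Ne, Ideal.span_singleton_eq_bot]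
    exact hz)
  rw [norm3 hs hD hι z n J h1 h2] at h
  have h3 : k ≤ n := by
    by_contra hcon
    push Not at hcon
    exact absurd h (not_le.2 (pow_lt_pow_right_of_lt_one₀ (by norm_num) (by norm_num) hcon))
  rw [h1]
  exact (pow_dvd_pow _ h3).mul_right J

end ord

section two

variable {s : QB} {D : ℕ} (hs : s ^ 2 = -(D : QB)) (hsf : Squarefree D) (hD : D % 12 = 11)

include hs hsf hD in
/-- `(2)` is not the square of a prime -/
lemma two_not_sq (P : Ideal (𝓞 (KK s))) (hP : Prime P) :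
    Ideal.span {((2 : ℕ) : 𝓞 (KK s))} ≠ P ^ 2 := by
  intro h
  have key : P ≤ P ^ 2 := by
    intro z hz
    rw [← h]
    have h1 : z ^ 2 ∈ Ideal.span {((2 : ℕ) : 𝓞 (KK s))} := by
      rw [h]
      exact Ideal.pow_mem_pow hz 2
    obtain ⟨w, hw⟩ := Ideal.mem_span_singleton.1 h1
    obtain ⟨x, y, hx, hxy, -⟩ := form hs hsf hD z
    obtain ⟨x', y', hx', hxy', -⟩ := form hs hsf hD w
    have h2 := congrArg (em s) hw
    rw [map_pow, map_mul, map_natCast, hx, hx'] at h2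
    have h3 : (((x ^ 2 - D * y ^ 2 : ℤ) : ℚ) : QB) + ((2 * x * y : ℤ) : ℚ) * s =
        ((4 * x' : ℤ) : ℚ) + ((4 * y' : ℤ) : ℚ) * s := by
      push_cast
      push_cast at h2
      linear_combination 4 * h2 - (y : QB) ^ 2 * hs
    obtain ⟨h4, h5⟩ := uv_inj hs hD h3
    have h4' : x ^ 2 - D * y ^ 2 = 4 * x' := by exact_mod_cast h4
    have h5' : 2 * x * y = 4 * y' := by exact_mod_cast h5
    have h6 : x * y = 2 * y' := by linarith
    have h7 : (2 : ℤ) ∣ x ∧ (2 : ℤ) ∣ y := by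
      have h8 : (2 : ℤ) ∣ x * y := ⟨y', h6⟩
      rcases Int.prime_two.dvd_or_dvd h8 with h9 | h9 <;> omega
    obtain ⟨⟨x1, rfl⟩, y1, rfl⟩ := h7
    have h8 : x1 ^ 2 - D * y1 ^ 2 = x' := by linarith
    have h9 : 2 * (x1 * y1) = y' := by linarith
    obtain ⟨D', hD'⟩ : ∃ D' : ℤ, (D : ℤ) = 2 * D' + 1 := ⟨(D : ℤ) / 2, by omega⟩
    have h10 : (2 : ℤ) ∣ x1 - y1 := by
      have h11 : (2 : ℤ) ∣ x1 ^ 2 - y1 ^ 2 := by
        obtain ⟨k, hk⟩ := hxy'
        refine ⟨k + x1 * y1 + D' * y1 ^ 2, ?_⟩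
        rw [hD'] at h8
        linarith
      have h12 : (2 : ℤ) ∣ (x1 - y1) * (x1 + y1) := by
        have : (x1 - y1) * (x1 + y1) = x1 ^ 2 - y1 ^ 2 := by ring
        rw [this]
        exact h11
      rcases Int.prime_two.dvd_or_dvd h12 with h13 | h13 <;> omega
    obtain ⟨b, hb⟩ := form' hs hD x1 y1 h10
    rw [Ideal.mem_span_singleton]
    refine ⟨b, em_inj ?_⟩
    rw [map_mul, map_natCast, hx, hb]
    push_cast
    ring
  rw [← Ideal.dvd_iff_le] at key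
  have h1 : P * P ∣ P * 1 := by rwa [mul_one, ← pow_two]
  exact hP.not_isUnit (isUnit_of_dvd_one ((mul_dvd_mul_iff_left hP.ne_zero).1 h1))

include hs hsf hD in
theorem two_sqfree : Squarefree (Ideal.span {((2 : ℕ) : 𝓞 (KK s))}) := by
  have h20 : Ideal.span {((2 : ℕ) : 𝓞 (KK s))} ≠ ⊥ := by
    rw [Ne, Ideal.span_singleton_eq_bot]
    intro h
    exact absurd h (Nat.cast_ne_zero.2 two_ne_zero)
  intro A hA
  by_contra hu
  have hA0 : A ≠ 0 := by
    rintro rfl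
    rw [mul_zero, zero_dvd_iff] at hA
    exact h20 hA
  obtain ⟨P, hP, hPA⟩ := WfDvdMonoid.exists_irreducible_factor hu hA0
  have hP' : Prime P := hP.prime
  have h1 : P ^ 2 ∣ Ideal.span {((2 : ℕ) : 𝓞 (KK s))} := by
    rw [pow_two]
    exact (mul_dvd_mul hPA hPA).trans hA
  obtain ⟨J, hJ⟩ := h1
  have h2 := congrArg Ideal.absNorm hJ
  rw [absNorm_nat hs hD, map_mul, map_pow] at h2
  have g := absNorm_gt (s := s) hP'.ne_zero (fun h => hP'.not_isUnit (by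
    rw [h, ← Ideal.one_eq_top]
    exact isUnit_one))
  obtain ⟨j, hj⟩ : ∃ j, Ideal.absNorm J = j := ⟨_, rfl⟩
  obtain ⟨a, ha⟩ : ∃ a, Ideal.absNorm P = a := ⟨_, rfl⟩
  rw [hj, ha] at h2
  rw [ha] at g
  have j1 : j = 1 := by
    have h3 : 4 ≤ a ^ 2 := by nlinarith
    have h4 : 0 < j := by
      rcases Nat.eq_zero_or_pos j with h5 | h5
      · rw [h5, mul_zero] at h2
        norm_num at h2
      · exact h5
    nlinarith
  rw [j1, Ideal.absNorm_eq_one_iff] at hj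
  rw [hj, Ideal.mul_top] at hJ
  exact two_not_sq hs hsf hD P hP' hJ

end two

theorem s_R2 : S_R2 := by
  intro D hsf hD s hs ι₀ ι₁ hι I b j h
  have hι' : ι₀ s = -ι₁ s := by rw [hι, neg_neg]
  constructor
  · rintro b' rfl
    have h1 : Ideal.span {((2 : ℕ) : 𝓞 (KK s))} ∣ (I * pid s ι₁) ^ 3 := by
      have h2 : Ideal.span {((2 : ℕ) : 𝓞 (KK s))} ∣ I ^ 3 * pid s ι₁ ^ j := by
        rw [← h.span, ← Ideal.span_singleton_mul_span_singleton]
        have : (((2 : ℕ) : 𝓞 (KK s))) = 2 := by norm_num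
        rw [this]
        exact dvd_mul_right _ _
      refine h2.trans ?_
      rw [mul_pow]
      exact mul_dvd_mul_left _ (pow_dvd_pow _ (by have := h.j1; omega))
    have h3 : Ideal.span {((2 : ℕ) : 𝓞 (KK s))} ∣ I * pid s ι₁ :=
      ((two_sqfree hs hsf hD).dvd_pow_iff_dvd (by norm_num)).1 h1
    have h4 : IsCoprime (Ideal.span {((2 : ℕ) : 𝓞 (KK s))}) (pid s ι₁) := by
      rw [Ideal.isCoprime_iff_exists]
      refine ⟨-((2 : ℕ) : 𝓞 (KK s)), ?_, ((3 : ℕ) : 𝓞 (KK s)), q_mem ι₁, ?_⟩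
      · exact neg_mem (Ideal.mem_span_singleton_self _)
      · push_cast
        ring
    exact h.prim 2 Nat.prime_two (h4.dvd_of_dvd_mul_right h3)
  · rintro ⟨h1, h2⟩
    have hP0 := pid_Prime (s := s) ι₀
    have hP1 := pid_Prime (s := s) ι₁
    have e1 : pid s ι₀ ^ 3 ∣ I ^ 3 * pid s ι₁ ^ j := by
      rw [← h.span]
      refine dvd_of_norm hs hD hι h.b0 (h1.trans (le_of_eq ?_))
      norm_num
    have e2 : pid s ι₁ ^ (3 + j) ∣ I ^ 3 * pid s ι₁ ^ j := by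
      rw [← h.span]
      refine dvd_of_norm hs hD hι' h.b0 (h2.trans (le_of_eq ?_))
      rw [pow_add]
      norm_num
    have e3 : pid s ι₁ ∣ I := by
      rw [pow_add] at e2
      have e4 := (mul_dvd_mul_iff_right (pow_ne_zero j hP1.ne_zero)).1 e2
      exact hP1.dvd_of_dvd_pow ((dvd_pow_self _ (by norm_num)).trans e4)
    have e4 : pid s ι₀ ∣ I := by
      have e5 : pid s ι₀ ∣ I ^ 3 * pid s ι₁ ^ j := (dvd_pow_self _ (by norm_num)).trans e1
      rcases hP0.dvd_or_dvd e5 with e6 | e6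
      · exact hP0.dvd_of_dvd_pow e6
      · exact absurd (hP0.dvd_of_dvd_pow e6) (not_dvd hs hD hι)
    obtain ⟨I', hI'⟩ := e4
    rw [hI'] at e3
    have e5 := (hP1.dvd_or_dvd e3).resolve_left (not_dvd hs hD hι')
    refine h.prim 3 Nat.prime_three ?_
    rw [(three_eq hs hD hι).1, hI']
    exact mul_dvd_mul_left _ e5

end Pool.Agent.L7h73.SGP
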