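import Pool.Agent.L7h48.SGP.Stm

set_option autoImplicit false
set_option linter.unusedSectionVars false

/-!
# Project SGP (helper48): the ring of integers of `ℚ(√-D)` and its primes
-/

namespace Pool.Agent.L7h73.SGP

open Pool.Agent.L7h48.SG Pool.Agent.L7h48.SGP
open Pool.Agent.L7h15.SG (em pid mem_pid em_int em_mem em_surj norm_int_le integral_iota
  integral_map exists_pow_principal)
open Pool.Agent.Y715.Gi (QB KK GK)
open NumberField

section elem

variable {s : QB} {D : ℕ} (hs : s ^ 2 = -(D : QB)) (hsf : Squarefree D) (hD : D % 12 = 11)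

include hD in
lemma D0 : D ≠ 0 := by rintro rfl; simp at hD

include hs hD in
lemma s_ne : s ≠ 0 := by
  rintro rfl
  have h := D0 hD
  rw [zero_pow two_ne_zero, eq_comm, neg_eq_zero] at hs
  exact h (by exact_mod_cast hs)

include hs hD in
lemma uv_inj {u v u' v' : ℚ} (h : (u : QB) + v * s = u' + v' * s) : u = u' ∧ v = v' := by
  obtain ⟨c, hc⟩ := Pool.Agent.Z384.exists_conj hs (D0 hD)
  have h1 := congrArg c h
  simp only [map_add, map_mul, map_ratCast, hc] at h1
  have h2 : (u : QB) = u' := by linear_combination (h + h1) / 2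
  have h3 : (v : QB) * s = v' * s := by linear_combination (h - h1) / 2
  have h4 := mul_right_cancel₀ (s_ne hs hD) h3
  exact ⟨by exact_mod_cast h2, by exact_mod_cast h4⟩

lemma rat_int {q : ℚ} (h : IsIntegral ℤ (q : QB)) : ∃ n : ℤ, (n : ℚ) = q := by
  have e : (q : QB) = algebraMap ℚ QB q := by rw [eq_ratCast]
  rw [e, isIntegral_algebraMap_iff (algebraMap ℚ QB).injective] at h
  obtain ⟨a, ha⟩ := IsIntegrallyClosed.isIntegral_iff.1 h
  rw [eq_intCast] at ha
  exact ⟨a, ha⟩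

include hsf in
lemma sq_int {w : ℚ} {M : ℤ} (h : (D : ℚ) * w ^ 2 = M) : ∃ n : ℤ, (n : ℚ) = w := by
  have h0 : (w.den : ℚ) ≠ 0 := by exact_mod_cast w.den_ne_zero
  have h1 : ((D : ℤ) * w.num ^ 2 : ℚ) = M * w.den ^ 2 := by
    have h2 : w = w.num / w.den := (Rat.num_div_den w).symm
    rw [h2] at h
    rw [div_pow, mul_div_assoc', div_eq_iff (pow_ne_zero 2 h0)] at h
    push_cast
    exact h
  have h2 : (D : ℤ) * w.num ^ 2 = M * w.den ^ 2 := by exact_mod_cast h1
  have h3 : ((w.den : ℤ) ^ 2) ∣ (D : ℤ) := by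
    have h4 : IsCoprime ((w.den : ℤ) ^ 2) (w.num ^ 2) := by
      apply IsCoprime.pow
      rw [Int.isCoprime_iff_gcd_eq_one, Int.gcd_comm]
      have := w.reduced
      simpa [Int.gcd] using this
    exact h4.dvd_of_dvd_mul_right ⟨M, by rw [h2]; ring⟩
  have h5 : w.den * w.den ∣ D := by
    rw [← pow_two]
    exact_mod_cast h3
  have h6 : w.den = 1 := Nat.isUnit_iff.1 (hsf _ h5)
  exact ⟨w.num, by rw [← Rat.den_eq_one_iff w |>.1 h6]; rfl⟩

include hD in
lemma par {x y N : ℤ} (h : x ^ 2 + D * y ^ 2 = 4 * N) : (2 : ℤ) ∣ x - y := by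
  have key : ∀ a b : ZMod 4, a ^ 2 + 3 * b ^ 2 = 0 → 2 * (a - b) = 0 := by decide
  have hD4 : ((D : ℤ) : ZMod 4) = 3 := by
    have h1 : D % 4 = 3 := by omega
    have h2 : ((D : ℕ) : ZMod 4) = ((3 : ℕ) : ZMod 4) := by
      rw [ZMod.natCast_eq_natCast_iff']
      exact h1
    push_cast
    rw [h2]
    rfl
  have h1 := congrArg (Int.cast : ℤ → ZMod 4) h
  push_cast at h1
  have h40 : (4 : ZMod 4) = 0 := by decide
  rw [h40, zero_mul] at h1
  have h2 : ((D : ℕ) : ZMod 4) = 3 := by exact_mod_cast hD4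
  rw [h2] at h1
  have h3 := key _ _ h1
  have h4 : (((2 * (x - y) : ℤ)) : ZMod 4) = 0 := by
    push_cast
    exact h3
  rw [ZMod.intCast_zmod_eq_zero_iff_dvd] at h4
  have h5 : (4 : ℤ) ∣ 2 * (x - y) := by exact_mod_cast h4
  omega

include hs hsf hD in
/-- the integers of `ℚ(√-D)` -/
theorem form (b : 𝓞 (KK s)) : ∃ x y : ℤ, em s b = ((x : QB) + (y : QB) * s) / 2 ∧ (2 : ℤ) ∣ x - y ∧
    (4 : ℤ) ∣ x ^ 2 + D * y ^ 2 := by
  obtain ⟨c, hc⟩ := Pool.Agent.Z384.exists_conj hs (D0 hD)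
  obtain ⟨u, v, huv⟩ := Pool.Agent.Z384.KK_ex hs (em_mem b)
  have hi := em_int b
  have hci : IsIntegral ℤ (c (em s b)) := integral_map c hi
  have h1 : c (em s b) = u - v * s := by
    rw [huv, map_add, map_mul, map_ratCast, map_ratCast, hc]
    ring
  have h2 : em s b + c (em s b) = ((2 * u : ℚ) : QB) := by
    rw [h1, huv]
    push_cast
    ring
  have h3 : em s b * c (em s b) = ((u ^ 2 + D * v ^ 2 : ℚ) : QB) := by
    rw [h1, huv]
    push_cast
    linear_combination -(v : QB) ^ 2 * hs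
  obtain ⟨x, hx⟩ := rat_int (h2 ▸ hi.add hci)
  obtain ⟨N, hN⟩ := rat_int (h3 ▸ hi.mul hci)
  obtain ⟨y, hy⟩ := sq_int (w := 2 * v) (M := 4 * N - x ^ 2) hsf (by
    push_cast
    rw [hx, hN]
    ring)
  have h4 : x ^ 2 + D * y ^ 2 = 4 * N := by
    have h5 : ((x ^ 2 + D * y ^ 2 : ℤ) : ℚ) = ((4 * N : ℤ) : ℚ) := by
      push_cast
      rw [hx, hy, hN]
      ring
    exact_mod_cast h5
  refine ⟨x, y, ?_, par hD h4, ⟨N, h4⟩⟩
  have e1 : (x : QB) = 2 * u := by
    have : (((x : ℚ)) : QB) = ((2 * u : ℚ) : QB) := by rw [hx]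
    push_cast at this
    exact this
  have e2 : (y : QB) = 2 * v := by
    have : (((y : ℚ)) : QB) = ((2 * v : ℚ) : QB) := by rw [hy]
    push_cast at this
    exact this
  rw [huv, e1, e2]
  ring

include hs hD in
/-- the integers of `ℚ(√-D)` -/
theorem form' (x y : ℤ) (h : (2 : ℤ) ∣ x - y) :
    ∃ b : 𝓞 (KK s), em s b = ((x : QB) + (y : QB) * s) / 2 := by
  obtain ⟨k, hk⟩ := h
  have hsK : s ∈ KK s := IntermediateField.mem_adjoin_simple_self ℚ s
  obtain ⟨l, hl⟩ : ∃ l : ℕ, D + 1 = 4 * l := ⟨(D + 1) / 4, by omega⟩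
  set w : QB := (1 + s) / 2 with hw
  have hwi : IsIntegral ℤ w := by
    refine ⟨Polynomial.X ^ 2 - Polynomial.X + Polynomial.C (l : ℤ), ?_, ?_⟩
    · monicity!
    · simp only [Polynomial.eval₂_add, Polynomial.eval₂_sub, Polynomial.eval₂_pow,
        Polynomial.eval₂_X, Polynomial.eval₂_C]
      have hl' : (D : QB) + 1 = 4 * l := by exact_mod_cast hl
      rw [map_natCast, hw]
      linear_combination hs / 4 + hl' / 4 * (-1)
  have hwK : w ∈ KK s := div_mem (add_mem (one_mem _) hsK) (ofNat_mem _ 2)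
  have e : ((x : QB) + (y : QB) * s) / 2 = (k : QB) + y * w := by
    have : (x : QB) = y + 2 * k := by
      have h1 : x = y + 2 * k := by linarith
      rw [h1]
      push_cast
      ring
    rw [this, hw]
    ring
  rw [e]
  exact em_surj (add_mem (intCast_mem _ k) (mul_mem (intCast_mem _ y) hwK))
    ((isIntegral_intCast (R := ℤ) k).add ((isIntegral_intCast (R := ℤ) y).mul hwi))

lemma em_inj : Function.Injective (em s) := by
  intro a b h
  have h1 : (algebraMap (𝓞 (KK s)) (KK s) a) = algebraMap (𝓞 (KK s)) (KK s) b :=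
    (algebraMap (KK s) QB).injective h
  exact RingOfIntegers.ext h1

/-- conjugation on the ring of integers -/
theorem exists_tau {c : QB ≃ₐ[ℚ] QB} (hs : s ^ 2 = -(D : QB)) (hc : c s = -s) :
    ∃ τ : 𝓞 (KK s) ≃+* 𝓞 (KK s), (∀ b, em s (τ b) = c (em s b)) ∧ ∀ b, τ (τ b) = b := by
  have hsK : s ∈ KK s := IntermediateField.mem_adjoin_simple_self ℚ s
  have hmem : ∀ {x : QB}, x ∈ KK s → c x ∈ KK s := by
    intro x hx
    obtain ⟨u, v, rfl⟩ := Pool.Agent.Z384.KK_ex hs hx
    have h1 : c ((u : QB) + v * s) = u - v * s := by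
      rw [map_add, map_mul, map_ratCast, map_ratCast, hc]
      ring
    rw [h1]
    exact sub_mem (SubfieldClass.ratCast_mem _ u) (mul_mem (SubfieldClass.ratCast_mem _ v) hsK)
  have hcc : ∀ {x : QB}, x ∈ KK s → c (c x) = x := by
    intro x hx
    obtain ⟨u, v, rfl⟩ := Pool.Agent.Z384.KK_ex hs hx
    rw [map_add, map_mul, map_ratCast, map_ratCast, hc, map_add, map_mul, map_ratCast,
      map_ratCast, map_neg, hc, neg_neg]
  choose f hf using fun b : 𝓞 (KK s) => em_surj (hmem (em_mem b)) (integral_map c (em_int b))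
  have hff : ∀ b, f (f b) = b := fun b => em_inj (by rw [hf, hf, hcc (em_mem b)])
  have hm : ∀ a b, f (a * b) = f a * f b := fun a b =>
    em_inj (by rw [hf, map_mul, map_mul, map_mul, hf, hf])
  have ha : ∀ a b, f (a + b) = f a + f b := fun a b =>
    em_inj (by rw [hf, map_add, map_add, map_add, hf, hf])
  let τ : 𝓞 (KK s) ≃+* 𝓞 (KK s) :=
    { toFun := f
      invFun := f
      left_inv := hff
      right_inv := hff
      map_mul' := hm
      map_add' := ha }
  exact ⟨τ, hf, hff⟩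

include hs hD in
lemma finrankK : Module.finrank ℚ (KK s) = 2 := by
  have hint : IsIntegral ℚ s := (Algebra.IsAlgebraic.isAlgebraic s).isIntegral
  rw [IntermediateField.adjoin.finrank hint]
  apply le_antisymm
  · have h1 : minpoly ℚ s ∣ Polynomial.X ^ 2 + Polynomial.C (D : ℚ) := by
      apply minpoly.dvd
      simp only [map_add, map_pow, Polynomial.aeval_X, hs, map_natCast]
      ring
    have h2 : (Polynomial.X ^ 2 + Polynomial.C (D : ℚ)).natDegree = 2 :=
      Polynomial.natDegree_X_pow_add_C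
    have h3 : (Polynomial.X ^ 2 + Polynomial.C (D : ℚ)) ≠ 0 := by
      intro h
      rw [h, Polynomial.natDegree_zero] at h2
      omega
    exact (Polynomial.natDegree_le_of_dvd h1 h3).trans h2.le
  · rw [minpoly.two_le_natDegree_iff hint]
    rintro ⟨q, hq⟩
    obtain ⟨c, hc⟩ := Pool.Agent.Z384.exists_conj hs (D0 hD)
    have h1 : c s = s := by
      rw [← hq, AlgEquiv.commutes]
    rw [hc] at h1
    have h2 : s = 0 := by linear_combination -(1 / 2 : QB) * h1
    exact s_ne hs hD h2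

include hs hD in
lemma finrankO : Module.finrank ℤ (𝓞 (KK s)) = 2 := by
  rw [RingOfIntegers.rank, finrankK hs hD]

include hs hD in
lemma absNorm_nat (n : ℕ) : Ideal.absNorm (Ideal.span {((n : ℕ) : 𝓞 (KK s))}) = n ^ 2 := by
  rw [Ideal.absNorm_span_natCast, finrankO hs hD]

include hs hD in
/-- the norm of an integer -/
theorem absNorm_em (b : 𝓞 (KK s)) (x y : ℤ) (hb : em s b = ((x : QB) + (y : QB) * s) / 2) :
    ((4 * Ideal.absNorm (Ideal.span {b}) : ℕ) : ℤ) = x ^ 2 + D * y ^ 2 := by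
  obtain ⟨c, hc⟩ := Pool.Agent.Z384.exists_conj hs (D0 hD)
  obtain ⟨τ, hτ, -⟩ := exists_tau hs hc
  have h1 : Ideal.absNorm (Ideal.span {τ b}) = Ideal.absNorm (Ideal.span {b}) := by
    have h2 : Ideal.span {τ b} = (Ideal.span {b}).map τ := by
      rw [Ideal.map_span, Set.image_singleton]
    rw [h2, Ideal.absNorm_apply, Ideal.absNorm_apply, Submodule.cardQuot_apply,
      Submodule.cardQuot_apply]
    exact Nat.card_congr (Ideal.quotientEquiv _ _ τ rfl).toEquiv.symm
  have hpos : 0 ≤ x ^ 2 + D * y ^ 2 := by positivity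
  have h3 : (4 : 𝓞 (KK s)) * (b * τ b) = (((x ^ 2 + D * y ^ 2).toNat : ℕ) : 𝓞 (KK s)) := by
    apply em_inj
    have h4 : (((x ^ 2 + D * y ^ 2).toNat : ℕ) : QB) = (x : QB) ^ 2 + D * (y : QB) ^ 2 := by
      have h5 : (((x ^ 2 + D * y ^ 2).toNat : ℕ) : ℤ) = x ^ 2 + D * y ^ 2 := Int.toNat_of_nonneg hpos
      have h6 := congrArg (fun z : ℤ => (z : QB)) h5
      push_cast at h6
      exact h6
    rw [map_mul, map_mul, map_natCast, h4, hτ, hb, map_div₀, map_add, map_mul, hc, map_intCast,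
      map_intCast, map_ofNat, map_ofNat]
    linear_combination -(y : QB) ^ 2 * hs
  have h7 := congrArg (fun z : 𝓞 (KK s) => Ideal.absNorm (Ideal.span {z})) h3
  rw [absNorm_nat hs hD, ← Ideal.span_singleton_mul_span_singleton,
    ← Ideal.span_singleton_mul_span_singleton, map_mul, map_mul, h1] at h7
  have h8 : Ideal.absNorm (Ideal.span {(4 : 𝓞 (KK s))}) = 4 ^ 2 := by
    have := absNorm_nat hs hD 4
    push_cast at this
    exact this
  rw [h8] at h7
  have h9 : (4 * Ideal.absNorm (Ideal.span {b})) ^ 2 = (x ^ 2 + D * y ^ 2).toNat ^ 2 := by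
    rw [← h7]
    ring
  have h10 := Nat.pow_left_injective two_ne_zero h9
  rw [h10]
  exact Int.toNat_of_nonneg hpos

end elem

end Pool.Agent.L7h73.SGP
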