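import Pool.Agent.L7h73.SGP.Base

set_option autoImplicit false
set_option linter.unusedSectionVars false

/-!
# Project SGP (helper48): the primes of `ℚ(√-D)`
-/

namespace Pool.Agent.L7h73.SGP

open Pool.Agent.L7h48.SG Pool.Agent.L7h48.SGP
open Pool.Agent.L7h15.SG (em pid mem_pid em_int em_mem em_surj norm_int_le integral_iota
  integral_map exists_pow_principal norm_p_lt)
open Pool.Agent.Y715.Gi (QB KK GK)
open NumberField

/-- Dedekind domains -/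
lemma gen {R : Type} [CommRing R] [IsDedekindDomain R] {P J : Ideal R} (hP : Prime P) {h n : ℕ}
    {π z : R} (hπ : P ^ h = Ideal.span {π}) (h1 : Ideal.span {z} = P ^ n * J) (h2 : ¬ P ∣ J) :
    ∃ w, z ^ h = π ^ n * w ∧ w ∉ P := by
  have e1 : Ideal.span {z ^ h} = Ideal.span {π ^ n} * J ^ h := by
    rw [← Ideal.span_singleton_pow, ← Ideal.span_singleton_pow, h1, mul_pow, ← hπ, ← pow_mul,
      ← pow_mul, mul_comm n h]
  have e2 : z ^ h ∈ Ideal.span {π ^ n} := by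
    have h5 : z ^ h ∈ Ideal.span {z ^ h} := Ideal.mem_span_singleton_self _
    rw [e1] at h5
    have h6 : Ideal.span {π ^ n} * J ^ h ≤ Ideal.span {π ^ n} := Ideal.mul_le_left
    exact h6 h5
  obtain ⟨w, hw⟩ := Ideal.mem_span_singleton.1 e2
  have hπ0 : Ideal.span {π ^ n} ≠ 0 := by
    rw [← Ideal.span_singleton_pow, ← hπ]
    exact pow_ne_zero _ (pow_ne_zero _ hP.ne_zero)
  have e3 : Ideal.span {w} = J ^ h := by
    apply mul_left_cancel₀ hπ0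
    rw [← e1, hw, Ideal.span_singleton_mul_span_singleton]
  refine ⟨w, hw, fun hw' => ?_⟩
  have h3 : P ∣ Ideal.span {w} := by
    rw [Ideal.dvd_span_singleton]
    exact hw'
  rw [e3] at h3
  exact h2 (hP.dvd_of_dvd_pow h3)

section prm

variable {s : QB} {D : ℕ} (hs : s ^ 2 = -(D : QB)) (hsf : Squarefree D) (hD : D % 12 = 11)

variable {q : ℕ} [hq : Fact q.Prime]

lemma norm_q : ‖(q : PadicAlgCl q)‖ = (q : ℝ)⁻¹ := by
  have h1 : ‖((q : ℚ_[q]) : PadicAlgCl q)‖ = ‖(q : ℚ_[q])‖ := PadicAlgCl.norm_extends q _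
  have h2 : ((q : ℚ_[q]) : PadicAlgCl q) = (q : PadicAlgCl q) :=
    map_natCast (algebraMap ℚ_[q] (PadicAlgCl q)) _
  rw [h2] at h1
  rw [h1]
  exact Padic.norm_p

lemma em_le (ι : QB →ₐ[ℚ] PadicAlgCl q) (x : 𝓞 (KK s)) : ‖ι (em s x)‖ ≤ 1 :=
  norm_int_le (integral_iota ι (em_int x))

instance pid_prime (ι : QB →ₐ[ℚ] PadicAlgCl q) : (pid s ι).IsPrime := by
  refine ⟨fun h => ?_, fun {a b} hab => ?_⟩
  · have h1 : (1 : 𝓞 (KK s)) ∈ pid s ι := h ▸ Submodule.mem_top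
    rw [mem_pid, map_one, map_one, norm_one] at h1
    exact lt_irrefl _ h1
  · rw [mem_pid, map_mul, map_mul, norm_mul] at hab
    by_contra hcon
    push Not at hcon
    rw [mem_pid, mem_pid, not_lt, not_lt] at hcon
    nlinarith [hcon.1, hcon.2, norm_nonneg (ι (em s a)), norm_nonneg (ι (em s b))]

lemma q_mem (ι : QB →ₐ[ℚ] PadicAlgCl q) : ((q : ℕ) : 𝓞 (KK s)) ∈ pid s ι := by
  rw [mem_pid, map_natCast, map_natCast]
  exact norm_p_lt

lemma pid_ne (ι : QB →ₐ[ℚ] PadicAlgCl q) : pid s ι ≠ ⊥ := by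
  intro h
  have h1 := q_mem (s := s) ι
  rw [h, Ideal.mem_bot] at h1
  exact hq.out.ne_zero (by exact_mod_cast h1)

lemma pid_Prime (ι : QB →ₐ[ℚ] PadicAlgCl q) : Prime (pid s ι) :=
  Ideal.prime_of_isPrime (pid_ne ι) (pid_prime ι)

/-- the norm of an integer and its order -/
lemma kl_aux (ι : QB →ₐ[ℚ] PadicAlgCl q) {h : ℕ} {π : 𝓞 (KK s)}
    (hπ : pid s ι ^ h = Ideal.span {π}) (z : 𝓞 (KK s)) (n : ℕ) (J : Ideal (𝓞 (KK s)))
    (h1 : Ideal.span {z} = pid s ι ^ n * J) (h2 : ¬ pid s ι ∣ J) :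
    ‖ι (em s z)‖ ^ h = ‖ι (em s π)‖ ^ n := by
  obtain ⟨w, hw, e4⟩ := gen (pid_Prime (s := s) ι) hπ h1 h2
  have e5 : ‖ι (em s w)‖ = 1 := le_antisymm (em_le ι w) (not_lt.1 e4)
  rw [← norm_pow, ← norm_pow, ← map_pow, ← map_pow, ← map_pow, ← map_pow, hw, map_mul, map_mul,
    norm_mul, e5, mul_one]

theorem kl (ι : QB →ₐ[ℚ] PadicAlgCl q) (z : 𝓞 (KK s)) (n e : ℕ) (J J' : Ideal (𝓞 (KK s)))
    (h1 : Ideal.span {z} = pid s ι ^ n * J) (h2 : ¬ pid s ι ∣ J)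
    (h3 : Ideal.span {((q : ℕ) : 𝓞 (KK s))} = pid s ι ^ e * J') (h4 : ¬ pid s ι ∣ J') :
    ‖ι (em s z)‖ ^ e = ((q : ℝ)⁻¹) ^ n := by
  obtain ⟨h, hh, π, hπ⟩ := exists_pow_principal (pid s ι) (pid_ne ι)
  have e1 := kl_aux ι hπ z n J h1 h2
  have e2 := kl_aux ι hπ _ e J' h3 h4
  rw [map_natCast, map_natCast, norm_q] at e2
  have e3 : (‖ι (em s z)‖ ^ e) ^ h = (((q : ℝ)⁻¹) ^ n) ^ h := by
    rw [← pow_mul, mul_comm e h, pow_mul, e1, ← pow_mul, mul_comm n e, pow_mul, ← e2, ← pow_mul,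
      ← pow_mul, mul_comm h n]
  exact (pow_left_inj₀ (by positivity) (by positivity) (by omega)).1 e3

include hs hsf hD in
/-- norms of elements -/
lemma mul_tau {c : QB ≃ₐ[ℚ] QB} (hc : c s = -s) {τ : 𝓞 (KK s) ≃+* 𝓞 (KK s)}
    (hτ : ∀ b, em s (τ b) = c (em s b)) (b : 𝓞 (KK s)) : ∃ n : ℤ, b * τ b = (n : 𝓞 (KK s)) := by
  obtain ⟨x, y, h1, -, N, hN⟩ := form hs hsf hD b
  refine ⟨N, em_inj ?_⟩
  have hN' : (x : QB) ^ 2 + D * (y : QB) ^ 2 = 4 * N := by exact_mod_cast hN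
  rw [map_mul, hτ, h1, map_div₀, map_add, map_mul, hc, map_intCast, map_intCast, map_ofNat,
    map_intCast]
  linear_combination (1 / 4 : QB) * hN' - (1 / 4 : QB) * (y : QB) ^ 2 * hs

lemma exists_q {P : Ideal (𝓞 (KK s))} (hP : P.IsPrime) :
    ∀ m : ℕ, m ≠ 0 → (m : 𝓞 (KK s)) ∈ P → ∃ q : ℕ, q.Prime ∧ (q : 𝓞 (KK s)) ∈ P := by
  intro m
  induction m using Nat.strong_induction_on with
  | _ m ih =>
    intro h0 hm
    by_cases h1 : m = 1
    · rw [h1, Nat.cast_one] at hm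
      exact absurd ((Ideal.eq_top_iff_one P).2 hm) hP.ne_top
    · have h2 := Nat.minFac_prime h1
      obtain ⟨k, hk⟩ := Nat.minFac_dvd m
      rw [hk, Nat.cast_mul] at hm
      rcases hP.mem_or_mem hm with h3 | h3
      · exact ⟨_, h2, h3⟩
      · have hk0 : k ≠ 0 := by
          rintro rfl
          rw [mul_zero] at hk
          exact h0 hk
        refine ih k ?_ hk0 h3
        have h4 := h2.two_le
        have h5 : 0 < k := Nat.pos_of_ne_zero hk0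
        calc k < 2 * k := by omega
          _ ≤ m.minFac * k := Nat.mul_le_mul_right _ h4
          _ = m := hk.symm

include hs hsf hD in
/-- every prime is given by a place -/
theorem exists_place (P : Ideal (𝓞 (KK s))) (hP : P.IsPrime) (hP0 : P ≠ ⊥) :
    ∃ (q : ℕ) (_ : Fact q.Prime) (ι : QB →ₐ[ℚ] PadicAlgCl q), pid s ι = P := by
  obtain ⟨q, hqp, hqP⟩ := exists_q hP (Ideal.absNorm P) (by
    rw [Ne, Ideal.absNorm_eq_zero_iff]
    exact hP0) (Ideal.absNorm_mem P)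
  have hq : Fact q.Prime := ⟨hqp⟩
  obtain ⟨c, hc⟩ := Pool.Agent.Z384.exists_conj hs (D0 hD)
  obtain ⟨τ, hτ, -⟩ := exists_tau hs hc
  let ι : QB →ₐ[ℚ] PadicAlgCl q := IsAlgClosed.lift
  have hmax : P.IsMaximal := hP.isMaximal hP0
  have h1 : (P : Set (𝓞 (KK s))) ⊆ pid s ι ∪ pid s (ι.comp (c : QB →ₐ[ℚ] QB)) := by
    intro z hz
    obtain ⟨n, hn⟩ := mul_tau hs hsf hD hc hτ z
    have h2 : (n : 𝓞 (KK s)) ∈ P := hn ▸ P.mul_mem_right _ hz
    have h3 : (q : ℤ) ∣ n := by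
      by_contra hcon
      have h4 : IsCoprime (q : ℤ) n := (Nat.prime_iff_prime_int.1 hqp).coprime_iff_not_dvd.2 hcon
      obtain ⟨a, b, hab⟩ := h4
      have h5 : (1 : 𝓞 (KK s)) ∈ P := by
        have h6 : (a : 𝓞 (KK s)) * (q : 𝓞 (KK s)) + (b : 𝓞 (KK s)) * (n : 𝓞 (KK s)) = 1 := by
          exact_mod_cast congrArg (fun z : ℤ => (z : 𝓞 (KK s))) hab
        rw [← h6]
        exact P.add_mem (P.mul_mem_left _ hqP) (P.mul_mem_left _ h2)
      exact hP.ne_top ((Ideal.eq_top_iff_one P).2 h5)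
    obtain ⟨k, rfl⟩ := h3
    have h4 : z * τ z ∈ pid s ι := by
      rw [hn, Int.cast_mul, Int.cast_natCast]
      exact Ideal.mul_mem_right _ _ (q_mem ι)
    rcases (pid_prime (s := s) ι).mem_or_mem h4 with h5 | h5
    · exact Or.inl h5
    · refine Or.inr ?_
      rw [mem_pid, hτ] at h5
      exact h5
  rw [Ideal.subset_union] at h1
  rcases h1 with h2 | h2
  · exact ⟨q, hq, ι, (hmax.eq_of_le (pid_prime ι).ne_top h2).symm⟩
  · exact ⟨q, hq, _, (hmax.eq_of_le (pid_prime _).ne_top h2).symm⟩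

end prm

section three

variable {s : QB} {D : ℕ} (hs : s ^ 2 = -(D : QB)) (hsf : Squarefree D) (hD : D % 12 = 11)
  {ι₀ ι₁ : QB →ₐ[ℚ] PadicAlgCl 3} (hι : ι₁ s = -ι₀ s)

include hs hD hι in
lemma exists_t3 : ∃ t : 𝓞 (KK s), t ∈ pid s ι₀ ∧ t ∉ pid s ι₁ := by
  have hs2 : (ι₀ s) ^ 2 = -(D : PadicAlgCl 3) := by rw [← map_pow, hs, map_neg, map_natCast]
  have hi : ‖ι₀ s‖ ≤ 1 := by
    obtain ⟨b, hb⟩ := form' hs hD 0 2 (by norm_num)
    have := em_le ι₀ b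
    rw [hb] at this
    have e : ((((0 : ℤ) : QB) + ((2 : ℤ) : QB) * s) / 2) = s := by
      push_cast
      ring
    rwa [e] at this
  obtain ⟨k, hk⟩ : 3 ∣ D + 1 := by omega
  have h3 : ‖(3 : PadicAlgCl 3)‖ < 1 := by
    have := norm_p_lt (p := 3)
    exact_mod_cast this
  have hnat : ∀ n : ℕ, ‖(n : PadicAlgCl 3)‖ ≤ 1 := fun n =>
    norm_int_le (isIntegral_natCast (R := ℤ) n)
  have h2 : ‖(2 : PadicAlgCl 3)‖ = 1 := by
    have := Pool.Agent.L7h15.SG.norm_nat_eq (p := 3) (n := 2) (by norm_num)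
    exact_mod_cast this
  have h4 : ‖ι₀ s - 1‖ * ‖ι₀ s + 1‖ < 1 := by
    have e : (ι₀ s - 1) * (ι₀ s + 1) = -(3 * (k : PadicAlgCl 3)) := by
      have hk' : (D : PadicAlgCl 3) + 1 = 3 * k := by exact_mod_cast hk
      linear_combination hs2 - hk'
    rw [← norm_mul, e, norm_neg, norm_mul]
    nlinarith [hnat k, norm_nonneg (3 : PadicAlgCl 3), norm_nonneg (k : PadicAlgCl 3)]
  have key : ∀ ε : ℤ, (ε = 1 ∨ ε = -1) → ‖ι₀ s - ε‖ < 1 →
      ∃ t : 𝓞 (KK s), t ∈ pid s ι₀ ∧ t ∉ pid s ι₁ := by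
    intro ε hε h5
    obtain ⟨t, ht⟩ := form' hs hD (-2 * ε) 2 (by omega)
    have e : em s t = s - ε := by
      rw [ht]
      push_cast
      ring
    refine ⟨t, ?_, ?_⟩
    · rw [mem_pid, e, map_sub, map_intCast]
      exact h5
    · rw [mem_pid, e, map_sub, map_intCast, hι]
      intro h6
      have h7 : (2 * ε : PadicAlgCl 3) = -((-ι₀ s - ε) + (ι₀ s - ε)) := by ring
      have h8 : ‖(2 * ε : PadicAlgCl 3)‖ < 1 := by
        rw [h7, norm_neg]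
        exact (IsUltrametricDist.norm_add_le_max _ _).trans_lt (max_lt h6 h5)
      rw [norm_mul, h2, one_mul] at h8
      rcases hε with rfl | rfl
      · rw [Int.cast_one, norm_one] at h8
        exact lt_irrefl _ h8
      · rw [Int.cast_neg, Int.cast_one, norm_neg, norm_one] at h8
        exact lt_irrefl _ h8
  by_cases h5 : ‖ι₀ s - 1‖ < 1
  · exact key 1 (Or.inl rfl) (by rwa [Int.cast_one])
  · refine key (-1) (Or.inr rfl) ?_
    rw [Int.cast_neg, Int.cast_one, sub_neg_eq_add]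
    push Not at h5
    by_contra h6
    push Not at h6
    nlinarith

include hs hD hι in
lemma pid_ne_pid : pid s ι₀ ≠ pid s ι₁ := by
  obtain ⟨t, h1, h2⟩ := exists_t3 hs hD hι
  intro h
  rw [h] at h1
  exact h2 h1

include hs hD hι in
lemma not_dvd : ¬ pid s ι₀ ∣ pid s ι₁ := by
  intro h
  rw [Ideal.dvd_iff_le] at h
  have hmax : (pid s ι₁).IsMaximal := (pid_prime ι₁).isMaximal (pid_ne ι₁)
  exact pid_ne_pid hs hD hι (hmax.eq_of_le (pid_prime ι₀).ne_top h).symm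

lemma absNorm_gt {P : Ideal (𝓞 (KK s))} (h0 : P ≠ ⊥) (h1 : P ≠ ⊤) : 2 ≤ Ideal.absNorm P := by
  have h2 : Ideal.absNorm P ≠ 0 := by
    rw [Ne, Ideal.absNorm_eq_zero_iff]
    exact h0
  have h3 : Ideal.absNorm P ≠ 1 := by
    rw [Ne, Ideal.absNorm_eq_one_iff]
    exact h1
  omega

include hs hD hι in
/-- `(3) = P₀ P₁` -/
theorem three_eq : Ideal.span {((3 : ℕ) : 𝓞 (KK s))} = pid s ι₀ * pid s ι₁ ∧
    Ideal.absNorm (pid s ι₀) = 3 ∧ Ideal.absNorm (pid s ι₁) = 3 := by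
  have hP0 := pid_Prime (s := s) ι₀
  have hP1 := pid_Prime (s := s) ι₁
  have d0 : pid s ι₀ ∣ Ideal.span {((3 : ℕ) : 𝓞 (KK s))} := by
    rw [Ideal.dvd_span_singleton]
    exact q_mem ι₀
  have d1 : pid s ι₁ ∣ Ideal.span {((3 : ℕ) : 𝓞 (KK s))} := by
    rw [Ideal.dvd_span_singleton]
    exact q_mem ι₁
  obtain ⟨J, hJ⟩ := d0
  rw [hJ] at d1
  have hι' : ι₀ s = -ι₁ s := by rw [hι, neg_neg]
  obtain ⟨J', hJ'⟩ := (hP1.dvd_or_dvd d1).resolve_left (not_dvd hs hD hι')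
  rw [hJ'] at hJ
  have h1 := congrArg Ideal.absNorm hJ
  rw [absNorm_nat hs hD, map_mul, map_mul] at h1
  have g0 := absNorm_gt (s := s) (pid_ne ι₀) (pid_prime (s := s) ι₀).ne_top
  have g1 := absNorm_gt (s := s) (pid_ne ι₁) (pid_prime (s := s) ι₁).ne_top
  generalize Ideal.absNorm (pid s ι₀) = a at h1 g0 ⊢
  generalize Ideal.absNorm (pid s ι₁) = b at h1 g1 ⊢
  obtain ⟨j, hj⟩ : ∃ j, Ideal.absNorm J' = j := ⟨_, rfl⟩
  rw [hj] at h1
  have ha : a ∣ 3 ^ 2 := ⟨_, h1⟩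
  have hb : b ∣ 3 ^ 2 := ⟨a * j, by rw [h1]; ring⟩
  rw [Nat.dvd_prime_pow Nat.prime_three] at ha hb
  obtain ⟨i, hi, rfl⟩ := ha
  obtain ⟨l, hl, rfl⟩ := hb
  have i0 : i ≠ 0 := by rintro rfl; norm_num at g0
  have l0 : l ≠ 0 := by rintro rfl; norm_num at g1
  have j0 : j ≠ 0 := by rintro rfl; norm_num at h1
  have hil : i = 1 ∧ l = 1 ∧ j = 1 := by
    have i2 : i = 1 ∨ i = 2 := by omega
    have l2 : l = 1 ∨ l = 2 := by omega
    rcases i2 with rfl | rfl <;> rcases l2 with rfl | rfl <;> omega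
  obtain ⟨rfl, rfl, rfl⟩ := hil
  rw [Ideal.absNorm_eq_one_iff] at hj
  rw [hJ, hj, Ideal.mul_top]
  exact ⟨rfl, by norm_num, by norm_num⟩

end three

end Pool.Agent.L7h73.SGP
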